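import Pool.Agent.T6.H95.MB.Game

/-! Maker-Breaker domination game (`MP_374a5d_co`): a connected graph of order 43 = 1 + 3 * 14 in
which Dominator needs 22 moves. The vertex `none` is joined to vertex 10 of each of three copies of
a gadget on 14 vertices. -/

namespace H49.MB

open H95.MB

/-- closed neighbourhoods in the gadget as bit masks -/
def nb : List ℕ := [9281, 14338, 2756, 4744, 4368, 8480, 69, 140, 304, 524, 1025, 2054, 4122, 8227]

/-- closed neighbourhood of `a` in the gadget as a bit mask -/
def nbm (a : ℕ) : ℕ := nb.getD a 0

/-- the vertices: a centre and three copies of the gadget -/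
abbrev V : Type := Option (Fin 3 × Fin 14)

/-- adjacency -/
def adjB : V → V → Bool
  | none, none => false
  | none, some (_, a) => a == 10
  | some (_, a), none => a == 10
  | some (i, a), some (j, b) => i == j && a != b && (nbm a).testBit b

lemma nb_symm : ∀ a b : Fin 14, (nbm a).testBit b = (nbm b).testBit a := by decide +kernel

/-- the graph of order 43 -/
def G : SimpleGraph V where
  Adj x y := adjB x y = true
  symm := ⟨by
    rintro (_ | ⟨i, a⟩) (_ | ⟨j, b⟩) h
    · exact h
    · exact h
    · exact h
    · simp only [adjB, Bool.and_eq_true, beq_iff_eq, bne_iff_ne] at h ⊢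
      exact ⟨⟨h.1.1.symm, h.1.2.symm⟩, by rw [nb_symm]; exact h.2⟩⟩
  loopless := ⟨by
    rintro (_ | ⟨i, a⟩) h
    · simp [adjB] at h
    · simp [adjB] at h⟩

/-- `d` is the bit mask of the part of `D` in copy `i` -/
def Rep (i : Fin 3) (D : Finset V) (d : ℕ) : Prop :=
  ∀ a : Fin 14, d.testBit a = true ↔ (some (i, a) : V) ∈ D

/-- the free vertices of copy `i` -/
def Fr (i : Fin 3) (D S : Finset V) : Finset (Fin 14) :=
  Finset.univ.filter fun a => (some (i, a) : V) ∉ D ∧ (some (i, a) : V) ∉ S

/-- every closed neighbourhood of a gadget vertex other than 10 meets `d` -/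
def hit (d : ℕ) : Bool :=
  (List.range 14).all fun a => a == 10 || (nbm a &&& d) != 0

/-- some closed neighbourhood (of a vertex other than 10 unless `b`) lies in `s` -/
def claimed (b : Bool) (s : ℕ) : Bool :=
  (List.range 14).any fun a => (b || a != 10) && (nbm a &&& s) == nbm a

/-- order in which Dominator's replies are tried (irrelevant for correctness) -/
def cand (d s w : ℕ) : List ℕ :=
  let s' := s ||| 1 <<< w
  -- threatened vertices first
  ((List.range 14).filter fun y => (List.range 14).any fun a =>
    a != 10 && (nbm a &&& d) == 0 && (nbm a ||| s') == (s' ||| 1 <<< y) && !(s'.testBit y)) ++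
  List.range 14

/-- Dominator, second to move in the gadget with `2 * k` free vertices, prevents Staller from
claiming a closed neighbourhood -/
def dw : ℕ → ℕ → ℕ → Bool
  | 0, d, _ => hit d
  | k + 1, d, s => hit d || (List.range 14).all fun w => (d ||| s).testBit w ||
      (cand d s w).any fun y => decide (y < 14) && y != w && !((d ||| s).testBit y) &&
        dw k (d ||| 1 <<< y) (s ||| 1 <<< w)

/-- Staller, to move in the gadget, can claim a closed neighbourhood -/
def sw (b : Bool) : ℕ → ℕ → ℕ → Bool
  | 0, _, s => claimed b s
  | k + 1, d, s => claimed b s || (List.range 14).any fun x => !((d ||| s).testBit x) &&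
      (claimed b (s ||| 1 <<< x) ||
        (((List.range 14).any fun y => y != x && !((d ||| s).testBit y)) &&
        (List.range 14).all fun y => y == x || (d ||| s).testBit y ||
          sw b k (d ||| 1 <<< y) (s ||| 1 <<< x)))

/-- Staller, to move in the gadget with `2 * k` free vertices, can force Dominator to use the
last vertex (and after each of his moves Dominator cannot move elsewhere) -/
def tk : ℕ → ℕ → ℕ → Bool
  | 0, _, _ => true
  | k + 1, d, s => (List.range 14).any fun x => !((d ||| s).testBit x) &&
      sw false (k + 1) d (s ||| 1 <<< x) &&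
      (List.range 14).all fun y => y == x || (d ||| s).testBit y ||
        tk k (d ||| 1 <<< y) (s ||| 1 <<< x) || sw false (k + 1) (d ||| 1 <<< y) (s ||| 1 <<< x)

end H49.MB
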